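import Mathlib
import Pool.Agent.Helper42.T3.GoalsL

/-! # Packet LEAF-ORD (MP_a41896_nt, project T3): the order at the origin -/

set_option autoImplicit false

open MvPolynomial

namespace Pool.Agent.Helper13.T3

open Pool.Agent.Helper42.T3

section ORD

variable {Ω : Type} [Field Ω] {σ : Type}

/-- the coefficients of `f` vanish at all exponents `≤ n` -/
def J (n : σ →₀ ℕ) (f : MvPolynomial σ Ω) : Prop := ∀ m, m ≤ n → coeff m f = 0

theorem J.mul [DecidableEq σ] {n : σ →₀ ℕ} {f : MvPolynomial σ Ω} (hf : J n f) (g : MvPolynomial σ Ω) :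
    J n (g * f) := by
  intro m hm
  rw [coeff_mul]
  refine Finset.sum_eq_zero fun p hp => ?_
  have h1 : p.1 + p.2 = m := Finset.HasAntidiagonal.mem_antidiagonal.1 hp
  have h2 : p.2 ≤ n := by
    refine le_trans ?_ hm
    rw [← h1]
    exact le_add_self
  rw [hf _ h2, mul_zero]

theorem coeff_Xd [DecidableEq σ] (l : σ) (f : MvPolynomial σ Ω) (m : σ →₀ ℕ) :
    coeff m (X l * pderiv l f) = (m l : Ω) * coeff m f := by
  rw [coeff_X_mul']
  by_cases h : l ∈ m.support
  · rw [if_pos h, coeff_pderiv]
    have h0 : m l ≠ 0 := Finsupp.mem_support_iff.1 h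
    have h1 : m - Finsupp.single l 1 + Finsupp.single l 1 = m := by
      refine tsub_add_cancel_of_le ?_
      rw [Finsupp.single_le_iff]
      exact Nat.one_le_iff_ne_zero.2 h0
    have h2 : (m - Finsupp.single l 1 : σ →₀ ℕ) l + 1 = m l := by
      have := DFunLike.congr_fun h1 l
      simpa using this
    have h3 : (((m - Finsupp.single l 1 : σ →₀ ℕ) l : Ω) + 1) = (m l : Ω) := by
      rw [← Nat.cast_succ]
      exact congrArg (Nat.cast : ℕ → Ω) h2
    rw [h1, mul_comm, h3]
  · rw [if_neg h]
    have h0 : m l = 0 := Finsupp.notMem_support_iff.1 h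
    rw [h0, Nat.cast_zero, zero_mul]

theorem J.Xd [DecidableEq σ] {n : σ →₀ ℕ} {f : MvPolynomial σ Ω} (hf : J n f) (l : σ) :
    J n (X l * pderiv l f) := by
  intro m hm
  rw [coeff_Xd, hf m hm, mul_zero]

theorem pd (l : σ) (f : MvPolynomial σ Ω) (n : σ →₀ ℕ) :
    coeff n (pderiv l f) = ((n l : Ω) + 1) * coeff (n + Finsupp.single l 1) f := by
  rw [coeff_pderiv, mul_comm]

theorem caseA [DecidableEq σ] (β : σ → Polynomial Ω) (l : σ) (f : MvPolynomial σ Ω) (n : σ →₀ ℕ)
    (hf : J n f) : coeff n (bX β l * pderiv l f) =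
      (β l).eval 0 * (((n l : Ω) + 1) * coeff (n + Finsupp.single l 1) f) := by
  have e : bX β l = Polynomial.aeval (X l) (Polynomial.divX (β l)) * X l + C ((β l).eval 0) := by
    unfold bX
    conv_lhs => rw [← Polynomial.divX_mul_X_add (β l)]
    rw [map_add, map_mul, Polynomial.aeval_X, Polynomial.aeval_C, ← Polynomial.coeff_zero_eq_eval_zero]
    rfl
  rw [e, add_mul, mul_assoc, coeff_add, (hf.Xd l).mul _ n le_rfl, zero_add, coeff_C_mul, pd]

theorem caseB [DecidableEq σ] (β : σ → Polynomial Ω) (l : σ) (f : MvPolynomial σ Ω) (n : σ →₀ ℕ)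
    (hf : J n f) (h0 : (β l).eval 0 = 0) (h2 : (2 : Ω) ≠ 0) :
    coeff n (bX β l * pderiv l (pderiv l f) +
        C (1 / 2) * (bX (fun l => Polynomial.derivative (β l)) l * pderiv l f)) =
      (Polynomial.derivative (β l)).eval 0 * (((n l : Ω) + 1 / 2) *
        (((n l : Ω) + 1) * coeff (n + Finsupp.single l 1) f)) := by
  obtain ⟨γ, hγ⟩ : ∃ γ, γ = Polynomial.divX (β l) := ⟨_, rfl⟩
  have e1 : β l = γ * Polynomial.X := by
    have := Polynomial.divX_mul_X_add (β l)
    rw [Polynomial.coeff_zero_eq_eval_zero, h0, map_zero, add_zero] at this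
    rw [hγ, this]
  obtain ⟨γ2, hγ2⟩ : ∃ γ2, γ2 = Polynomial.divX γ := ⟨_, rfl⟩
  obtain ⟨b, hb⟩ : ∃ b, b = γ.eval 0 := ⟨_, rfl⟩
  have e2 : γ = γ2 * Polynomial.X + Polynomial.C b := by
    rw [hγ2, hb, ← Polynomial.coeff_zero_eq_eval_zero, Polynomial.divX_mul_X_add]
  have e3 : (Polynomial.derivative (β l)).eval 0 = b := by
    rw [e1, Polynomial.derivative_mul, Polynomial.derivative_X]
    simp [hb]
  have e4 : Polynomial.derivative (β l) =
      (γ2 + Polynomial.derivative γ) * Polynomial.X + Polynomial.C b := by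
    rw [e1, Polynomial.derivative_mul, Polynomial.derivative_X, mul_one]
    linear_combination e2
  have b1 : bX β l = (Polynomial.aeval (X l) γ2 * X l + C b) * X l := by
    unfold bX
    rw [e1, map_mul, Polynomial.aeval_X]
    conv_lhs => rw [e2]
    rw [map_add, map_mul, Polynomial.aeval_X, Polynomial.aeval_C]
    rfl
  have b2 : bX (fun l => Polynomial.derivative (β l)) l =
      Polynomial.aeval (X l) (γ2 + Polynomial.derivative γ) * X l + C b := by
    unfold bX
    show Polynomial.aeval (X l) (Polynomial.derivative (β l)) = _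
    rw [e4, map_add, map_mul, Polynomial.aeval_X, Polynomial.aeval_C]
    rfl
  have hXX : J n (X l * (X l * pderiv l (pderiv l f))) := by
    intro m hm
    have h3 := (hf.Xd l).Xd l m hm
    have h4 := hf.Xd l m hm
    rw [Derivation.leibniz, pderiv_X_self, smul_eq_mul, smul_eq_mul, mul_one, mul_add, coeff_add,
      h4, add_zero] at h3
    exact h3
  rw [e3, b1, b2]
  have e5 : (Polynomial.aeval (X l) γ2 * X l + C b) * X l * pderiv l (pderiv l f) +
      C (1 / 2) * ((Polynomial.aeval (X l) (γ2 + Polynomial.derivative γ) * X l + C b) * pderiv l f) =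
      Polynomial.aeval (X l) γ2 * (X l * (X l * pderiv l (pderiv l f))) +
      C b * (X l * pderiv l (pderiv l f)) +
      (C (1 / 2) * Polynomial.aeval (X l) (γ2 + Polynomial.derivative γ)) * (X l * pderiv l f) +
      C (1 / 2) * (C b * pderiv l f) := by
    ring
  rw [e5, coeff_add, coeff_add, coeff_add, hXX.mul _ n le_rfl, (hf.Xd l).mul _ n le_rfl, coeff_C_mul,
    coeff_Xd, coeff_C_mul, coeff_C_mul, pd]
  ring

theorem deg_bX (β : σ → Polynomial Ω) (i' l : σ) (hl : l ≠ i') : (bX β l).degreeOf i' = 0 := by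
  unfold bX
  have key : ∀ p : Polynomial Ω,
      (Polynomial.aeval (X l : MvPolynomial σ Ω) p).degreeOf i' ≤ 0 := by
    intro p
    induction p using Polynomial.induction_on' with
    | add p q hp hq =>
      rw [map_add]
      exact (degreeOf_add_le _ _ _).trans (max_le hp hq)
    | monomial n a =>
      rw [Polynomial.aeval_monomial]
      refine (degreeOf_mul_le _ _ _).trans ?_
      have h1 : ((algebraMap Ω (MvPolynomial σ Ω)) a).degreeOf i' = 0 := degreeOf_C a i'
      have h2 : ((X l : MvPolynomial σ Ω) ^ n).degreeOf i' = 0 :=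
        degreeOf_X_pow_of_ne n (Ne.symm hl)
      rw [h1, h2]
  exact Nat.le_zero.1 (key _)

theorem deg_pd (i' l : σ) (f : MvPolynomial σ Ω) (hf : f.degreeOf i' = 0) :
    (pderiv l f).degreeOf i' = 0 := by
  rw [← Nat.le_zero, degreeOf_le_iff]
  intro m hm
  rw [mem_support_iff, coeff_pderiv] at hm
  have h1 := monomial_le_degreeOf i' (mem_support_iff.2 (left_ne_zero_of_mul hm))
  rw [hf] at h1
  have h2 : m i' ≤ (m + Finsupp.single l 1 : σ →₀ ℕ) i' := by
    rw [Finsupp.add_apply]
    exact Nat.le_add_right _ _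
  exact h2.trans h1

theorem deg_mul (i' : σ) (f g : MvPolynomial σ Ω) (hf : f.degreeOf i' = 0) (hg : g.degreeOf i' = 0) :
    (f * g).degreeOf i' = 0 := by
  have := degreeOf_mul_le i' f g
  omega

theorem deg_add (i' : σ) (f g : MvPolynomial σ Ω) (hf : f.degreeOf i' = 0) (hg : g.degreeOf i' = 0) :
    (f + g).degreeOf i' = 0 := by
  have := degreeOf_add_le i' f g
  rw [hf, hg] at this
  simpa using this

end ORD

theorem t_ORD : Pool.Agent.Helper42.T3.ORD := by
  intro Ω _ _ σ _ _ i' β P hβ hc hR hΔ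
  have h2 : (2 : Ω) ≠ 0 := two_ne_zero
  -- no minimal exponent
  have claim : ∀ N : ℕ, ∀ (f : MvPolynomial σ Ω) (m : σ →₀ ℕ), P f → f.degreeOf i' = 0 →
      coeff m f ≠ 0 → (∀ m', m' < m → coeff m' f = 0) → ∑ l, m l = N → False := by
    intro N
    induction N with
    | zero =>
      intro f m hP _ hm _ hN
      have hm0 : m = 0 := by
        ext l
        exact (Finset.sum_eq_zero_iff.1 hN) l (Finset.mem_univ l)
      rw [hm0] at hm
      exact hm (hc f hP)
    | succ N ih =>
      intro f m hP hf hm hmin hN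
      obtain ⟨l, hl⟩ : ∃ l, m l ≠ 0 := by
        by_contra hcon
        push Not at hcon
        rw [Finset.sum_eq_zero fun l _ => hcon l] at hN
        omega
      have hli : l ≠ i' := by
        rintro rfl
        have h1 := monomial_le_degreeOf l (mem_support_iff.2 hm)
        omega
      obtain ⟨n, hn⟩ : ∃ n : σ →₀ ℕ, n + Finsupp.single l 1 = m := by
        refine ⟨m - Finsupp.single l 1, tsub_add_cancel_of_le ?_⟩
        rw [Finsupp.single_le_iff]
        exact Nat.one_le_iff_ne_zero.2 hl
      have hpos : (0 : σ →₀ ℕ) < Finsupp.single l 1 := by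
        rw [pos_iff_ne_zero]
        exact Finsupp.single_ne_zero.2 one_ne_zero
      have hnm : n < m := by
        rw [← hn]
        exact lt_add_of_pos_right n hpos
      have hJ : ∀ n', n' ≤ n → J n' f := fun n' hn' m' hm' =>
        hmin m' (lt_of_le_of_lt (hm'.trans hn') hnm)
      have hlt : ∀ n', n' < n → coeff (n' + Finsupp.single l 1) f = 0 := fun n' hn' =>
        hmin _ (by rw [← hn]; exact add_lt_add_left hn' _)
      have hsum : ∑ k, n k = N := by
        have h1 : ∑ k, m k = ∑ k, n k + 1 := by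
          rw [← hn]
          simp only [Finsupp.add_apply]
          rw [Finset.sum_add_distrib]
          congr 1
          rw [Finset.sum_eq_single l]
          · exact Finsupp.single_eq_same
          · intro k _ hk
            exact Finsupp.single_eq_of_ne hk
          · intro h
            exact absurd (Finset.mem_univ l) h
        omega
      have hn1 : ((n l : Ω) + 1) ≠ 0 := by exact_mod_cast Nat.succ_ne_zero (n l)
      by_cases h0 : (β l).eval 0 = 0
      · -- the second operator
        refine ih _ n (hΔ f l hli hP hf) ?_ ?_ ?_ hsum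
        · refine deg_add _ _ _ (deg_mul _ _ _ (deg_bX β i' l hli) (deg_pd _ _ _ (deg_pd _ _ _ hf)))
            (deg_mul _ _ _ (degreeOf_C _ _) (deg_mul _ _ _ (deg_bX _ i' l hli) (deg_pd _ _ _ hf)))
        · rw [caseB β l f n (hJ n le_rfl) h0 h2, hn]
          refine mul_ne_zero (hβ l h0) (mul_ne_zero ?_ (mul_ne_zero hn1 hm))
          intro h3
          have h4 : (2 * (n l : Ω) + 1) = 0 := by
            have : 2 * ((n l : Ω) + 1 / 2) = 0 := by rw [h3, mul_zero]
            rw [mul_add, mul_one_div_cancel h2] at this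
            exact this
          have h5 : ((2 * n l + 1 : ℕ) : Ω) = 0 := by
            push_cast
            exact h4
          exact absurd (Nat.cast_eq_zero.1 h5) (by omega)
        · intro n' hn'
          rw [caseB β l f n' (hJ n' hn'.le) h0 h2, hlt n' hn', mul_zero, mul_zero, mul_zero]
      · refine ih _ n (hR f l hli hP hf) ?_ ?_ ?_ hsum
        · exact deg_mul _ _ _ (deg_bX β i' l hli) (deg_pd _ _ _ hf)
        · rw [caseA β l f n (hJ n le_rfl), hn]
          exact mul_ne_zero h0 (mul_ne_zero hn1 hm)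
        · intro n' hn'
          rw [caseA β l f n' (hJ n' hn'.le), hlt n' hn', mul_zero, mul_zero]
  intro f hP hf
  by_contra hne
  have hsn : f.support.Nonempty := support_nonempty.2 hne
  obtain ⟨m, hm, hmm⟩ := Finset.exists_min_image f.support (fun m => ∑ l, m l) hsn
  refine claim _ f m hP hf (mem_support_iff.1 hm) ?_ rfl
  intro m' hm'
  by_contra hm0
  have h1 := hmm m' (mem_support_iff.2 hm0)
  have h2 : ∑ l, m' l < ∑ l, m l := by
    obtain ⟨h3, h4⟩ := lt_iff_le_and_ne.1 hm'
    obtain ⟨l, hl⟩ : ∃ l, m' l ≠ m l := by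
      by_contra hcon
      push Not at hcon
      exact h4 (Finsupp.ext hcon)
    exact Finset.sum_lt_sum (fun k _ => h3 k) ⟨l, Finset.mem_univ l, lt_of_le_of_ne (h3 l) hl⟩
  omega

end Pool.Agent.Helper13.T3
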